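import Pool.Agent.Helper6.NX.GoalsE
import Pool.Agent.Helper15.An.CharMat

/-! Packet NX-CB: the character bound with a binomial coefficient. -/

set_option linter.unusedSectionVars false

namespace Pool.Agent.Helper28.NX

open Matrix Module Equiv Pool.Agent.Helper15.An
open Pool.Agent.Helper17.RelDim (fixS finrank_fixS_le)

variable {n : ℕ} {V : Type} [NormedAddCommGroup V] [InnerProductSpace ℂ V] [FiniteDimensional ℂ V]

/-- The character bound. -/
theorem char_bound_ch (ρ : Perm (Fin n) →* (V →ₗ[ℂ] V))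
    (hu : ∀ σ v w, inner ℂ (ρ σ v) (ρ σ w) = inner ℂ v w) (r : ℕ)
    (hno : ∀ v : V, (∀ σ : Perm (Fin n), Perm.sign σ = 1 →
      (∀ j : Fin n, j.val < r → σ j = j) → ρ σ v = v) → v = 0)
    (hn : 64 ≤ n) (hr : 16 * (r + 1) ≤ n) (J : ℕ) (hJ : 20 * (12 * J + 1) ≤ n)
    (g : Perm (Fin n)) (hg : 10 * fixc g < n) :
    ‖LinearMap.trace ℂ V (ρ g)‖ ≤
      (2 * (n.choose (12 * J) : ℝ) * (7 / 8) ^ (r + 1) + 1 / 2 ^ J) * finrank ℂ V := by
  classical
  obtain ⟨T, hT, hTc⟩ := exists_T g
  have hT1 : 3 * n < 10 * T.card := by omega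
  set s := 12 * J with hs
  set U : Submodule ℂ V := (T.powersetCard s).sup (fun R => altfix ρ (T \ R)) with hU
  have hTR : ∀ R ∈ T.powersetCard s, (T \ R).card + s = T.card := by
    intro R hR
    rw [Finset.mem_powersetCard] at hR
    rw [Finset.card_sdiff_of_subset hR.1, hR.2]
    have := Finset.card_le_card hR.1
    omega
  -- dimension of U
  have hUdim : (finrank ℂ U : ℝ) ≤ (n.choose s : ℝ) * (2 * (7 / 8) ^ (r + 1) * finrank ℂ V) := by
    have h1 := finrank_sup_le (T.powersetCard s) (fun R => altfix ρ (T \ R))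
      (2 * (7 / 8) ^ (r + 1) * finrank ℂ V) (fun R hR => by
        refine finrank_altfix_le ρ hu r hno hr (T \ R) ?_ hn
        have := hTR R hR
        omega)
    refine h1.trans ?_
    have h2 : ((T.powersetCard s).card : ℝ) ≤ (n.choose s : ℝ) := by
      rw [Finset.card_powersetCard]
      have h4 : T.card ≤ n := by simpa using Finset.card_le_univ T
      exact_mod_cast Nat.choose_le_choose s h4
    have h8 : (0 : ℝ) ≤ 2 * (7 / 8) ^ (r + 1) * finrank ℂ V := by positivity
    exact mul_le_mul_of_nonneg_right h2 h8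
  -- invariance of U
  have hUT : ∀ σ : Perm (Fin n), Perm.sign σ = 1 → (∀ x, x ∉ T → σ x = x) →
      ∀ u ∈ U, ρ σ u ∈ U := by
    intro σ _ hσ
    have hle : U ≤ U.comap (ρ σ) := by
      rw [hU]
      refine Finset.sup_le fun R hR => ?_
      intro v hv
      rw [Submodule.mem_comap]
      have hmemT : ∀ x, σ x ∈ T ↔ x ∈ T := by
        intro x
        constructor
        · intro h
          by_contra hx
          rw [hσ x hx] at h
          exact hx h
        · intro h
          by_contra hx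
          have h1 := hσ (σ x) hx
          exact hx ((σ.injective h1).symm ▸ h)
      have hR' := Finset.mem_powersetCard.1 hR
      have hR2 : R.map σ.toEmbedding ∈ T.powersetCard s := by
        rw [Finset.mem_powersetCard, Finset.card_map]
        refine ⟨?_, hR'.2⟩
        intro x hx
        rw [Finset.mem_map] at hx
        obtain ⟨y, hy, rfl⟩ := hx
        exact (hmemT y).2 (hR'.1 hy)
      have h2 : ρ σ v ∈ altfix ρ (T \ R.map σ.toEmbedding) := by
        refine map_altfix ρ σ (T \ R) _ ?_ v hv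
        intro x hx
        rw [Finset.mem_sdiff] at hx ⊢
        refine ⟨(hmemT x).1 hx.1, fun h => hx.2 ?_⟩
        rw [Finset.mem_map]
        exact ⟨x, h, rfl⟩
      exact (Finset.le_sup (f := fun R => altfix ρ (T \ R)) hR2) h2
    exact fun u hu' => hle hu'
  have hUgT : ∀ σ : Perm (Fin n), Perm.sign σ = 1 → (∀ x ∈ T, σ x = x) →
      ∀ u ∈ U, ρ σ u ∈ U := by
    intro σ _ hσ
    have hle : U ≤ U.comap (ρ σ) := by
      rw [hU]
      refine Finset.sup_le fun R hR => ?_
      intro v hv
      rw [Submodule.mem_comap]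
      have h2 : ρ σ v ∈ altfix ρ (T \ R) := by
        refine map_altfix ρ σ (T \ R) _ ?_ v hv
        intro x hx
        have h3 := hσ (σ x) (Finset.mem_sdiff.1 hx).1
        have h4 : σ x = x := σ.injective h3
        rwa [h4] at hx
      exact (Finset.le_sup (f := fun R => altfix ρ (T \ R)) hR) h2
    exact fun u hu' => hle hu'
  have hW : ∀ W : Submodule ℂ V, W ≤ Uᗮ → W ≠ ⊥ →
      (∀ σ : Perm (Fin n), Perm.sign σ = 1 → (∀ x, x ∉ T → σ x = x) →
        ∀ w ∈ W, ρ σ w ∈ W) → ((2 : ℝ) ^ J) ^ 4 ≤ finrank ℂ W := by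
    intro W hWU hW0 hWinv
    have h1 := Pool.Agent.Helper4.DimDoubling.dim_doubling ρ (4 * J) T (by omega) W hW0 hWinv
      (fun C hCT hCc w hw hfix => by
        have hR : T \ C ∈ T.powersetCard s := by
          rw [Finset.mem_powersetCard, Finset.card_sdiff_of_subset hCT]
          exact ⟨Finset.sdiff_subset, by omega⟩
        have h2 : w ∈ altfix ρ (T \ (T \ C)) := by
          rw [Finset.sdiff_sdiff_eq_self hCT]
          exact hfix
        have h3 : w ∈ U := (Finset.le_sup (f := fun R => altfix ρ (T \ R)) hR) h2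
        have h4 : w ∈ Uᗮ := hWU hw
        have h5 : w ∈ U ⊓ Uᗮ := ⟨h3, h4⟩
        rw [Submodule.inf_orthogonal_eq_bot] at h5
        exact (Submodule.mem_bot ℂ).1 h5)
    rw [← pow_mul, mul_comm J 4]
    exact_mod_cast h1
  have h1 := Pool.Agent.Helper51.KT.k_trick ρ hu g T hT U hUT hUgT ((2 : ℝ) ^ J) (by positivity) hW
  refine h1.trans ?_
  have h2 : (2 * (n.choose s : ℝ) * (7 / 8) ^ (r + 1) + 1 / 2 ^ J) * finrank ℂ V =
      (n.choose s : ℝ) * (2 * (7 / 8) ^ (r + 1) * finrank ℂ V) + finrank ℂ V / 2 ^ J := by ring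
  rw [h2]
  linarith

theorem cb_all : Pool.Agent.Helper6.NX.S_CB := by
  intro n D ρ r J hu hno hn hr hJ g hg
  have h := char_bound_ch (toV ρ) (toV_inner ρ hu) r (fun v hv => by
    by_contra hne
    apply hno
    refine ⟨v.ofLp, fun h0 => hne ?_, fun h => ?_⟩
    · ext i
      rw [h0]; rfl
    · have h1 := hv h.1 (mem_stab.1 h.2).1 (mem_stab.1 h.2).2
      rw [toV_apply] at h1
      exact congrArg WithLp.ofLp h1) hn hr J hJ g hg
  rw [toV_trace, finrank_euclideanSpace_fin] at h
  exact h

end Pool.Agent.Helper28.NX
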