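import Pool.Agent.Helper6.NX.GoalsE

/-! Packet NX-IT: traces of the iterated mixtures. -/

namespace Pool.Agent.Helper28.NX

open Matrix Equiv Pool.Agent.Helper15.An Pool.Agent.Helper6.NX

theorem it_aux (hMX : S_MX) {n D : ℕ} {ρ : Perm (Fin n) →* Matrix (Fin D) (Fin D) ℂ}
    {κ : Perm (Fin n) → ℝ} (hρ : IsIrr ρ) (hκ : IsLaw κ) (J : ℕ) :
    IsLaw (itm κ J) ∧
      trace (wop ρ (itm κ J)) = (D : ℂ) * (trace (wop ρ κ) / (D : ℂ)) ^ (2 ^ J) := by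
  have hD : (D : ℂ) ≠ 0 := by
    have := hρ.pos
    exact_mod_cast this.ne'
  induction J with
  | zero =>
    refine ⟨hκ, ?_⟩
    simp only [itm, pow_zero, pow_one]
    field_simp
  | succ J ih =>
    obtain ⟨h1, h2⟩ := ih
    obtain ⟨h3, -, -, h4, -⟩ := hMX n (itm κ J) (itm κ J) h1 h1
    refine ⟨h3, ?_⟩
    change trace (wop ρ (mixc (itm κ J) (itm κ J))) = _
    rw [h4 D ρ hρ, trace_smul, smul_eq_mul, h2, pow_succ 2 J, pow_mul]
    field_simp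

theorem it_of (hMX : S_MX) : S_IT := by
  intro n D J ρ κ hρ hκ hre
  rw [(it_aux hMX hρ hκ J).2, ← hre]
  have h : (D : ℂ) * ((((trace (wop ρ κ)).re : ℝ) : ℂ) / (D : ℂ)) ^ (2 ^ J) =
      (((D : ℝ) * ((trace (wop ρ κ)).re / D) ^ (2 ^ J) : ℝ) : ℂ) := by
    push_cast
    ring
  rw [h, Complex.ofReal_re]
  simp

end Pool.Agent.Helper28.NX
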