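import Pool.Agent.Helper6.NX.GoalsE
import Pool.Agent.Helper15.An.Char

/-! Packet NX-KEYA: counting colourings of a product of conjugates. -/

namespace Pool.Agent.Helper28.NX

open Equiv Pool.Agent.Helper6.NX Pool.Agent.Helper15.An

/-- permutations carrying `a` to `b` -/
theorem card_comp_le {n : ℕ} {τ : Type} [Fintype τ] [DecidableEq τ] (a b : Fin n → τ)
    (Y : Finset (Perm (Fin n))) (hY : ∀ y ∈ Y, ∀ q, a (y q) = b q) :
    Y.card ≤ ∏ t, (Finset.univ.filter fun p => a p = t).card.factorial := by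
  classical
  rcases Y.eq_empty_or_nonempty with rfl | ⟨y₀, hy₀⟩
  · simp
  have h1 : Fintype.card {g : Perm (Fin n) // a ∘ g = a} =
      ∏ t, (Finset.univ.filter fun p => a p = t).card.factorial := by
    rw [DomMulAct.stabilizer_card]
    refine Finset.prod_congr rfl fun t _ => ?_
    rw [Fintype.card_subtype]
  rw [← h1, ← Fintype.card_coe Y]
  refine Fintype.card_le_of_injective (fun y : Y =>
    (⟨(y : Perm (Fin n)) * y₀⁻¹, ?_⟩ : {g : Perm (Fin n) // a ∘ g = a})) ?_
  · funext q
    change a ((y : Perm (Fin n)) (y₀⁻¹ q)) = a q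
    rw [hY y y.2, ← hY y₀ hy₀]
    simp
  · intro y z hyz
    have := congrArg Subtype.val hyz
    exact Subtype.ext (mul_right_cancel this)

theorem typ_eq_of {n x : ℕ} (V W : Perm (Fin n)) (χ χ' : Fin n → Fin (x + 1)) (y : Perm (Fin n))
    (h : ∀ q, (χ (y q), χ (V (y q))) = (χ' q, χ' (W q))) : typ V χ = typ W χ' := by
  funext t
  unfold typ
  symm
  refine Finset.card_bij (fun q _ => y q) ?_ ?_ ?_
  · intro q hq
    simp only [Finset.mem_filter, Finset.mem_univ, true_and] at hq ⊢
    rw [h q, hq]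
  · intro a _ b _ hab
    exact y.injective hab
  · intro p hp
    simp only [Finset.mem_filter, Finset.mem_univ, true_and] at hp
    refine ⟨y.symm p, ?_, by simp⟩
    simp only [Finset.mem_filter, Finset.mem_univ, true_and]
    rw [← h, apply_symm_apply, hp]

theorem keya_all : S_KEYA := by
  classical
  intro n x s V V'
  -- the set of pairs
  have h1 : ∀ y : Perm (Fin n), colc x s (V * (y * V' * y⁻¹)) =
      ∑ χ ∈ sup0 n x s, if (∀ p, χ ((V * (y * V' * y⁻¹)) p) = χ p) then (1 : ℝ) else 0 := by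
    intro y
    unfold colc sup0
    rw [← Finset.sum_filter, Finset.sum_const, nsmul_eq_mul, mul_one, Finset.filter_filter]
    congr 2
    ext χ
    simp only [Finset.mem_filter, Finset.mem_univ, true_and]
    exact and_comm
  simp_rw [h1]
  rw [Finset.sum_comm]
  refine Finset.sum_le_sum fun χ hχ => ?_
  -- the permutations for a given colouring
  rw [← Finset.sum_filter, Finset.sum_const, nsmul_eq_mul, mul_one]
  set Y : Finset (Perm (Fin n)) :=
    Finset.univ.filter fun y => ∀ p, χ ((V * (y * V' * y⁻¹)) p) = χ p with hY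
  have hYm : ∀ y ∈ Y, ∀ q, (χ (y q), χ (V (y q))) = ((χ ∘ y) q, (χ ∘ y) (V'⁻¹ q)) := by
    intro y hy q
    rw [hY, Finset.mem_filter] at hy
    have h := hy.2 (y (V'⁻¹ q))
    simp only [Perm.mul_apply] at h
    rw [inv_apply_self', apply_inv_self'] at h
    simp only [Function.comp_apply]
    rw [h]
  have hmaps : ∀ y ∈ Y, (χ ∘ y) ∈ sup0 n x s := by
    intro y hy
    unfold sup0 at hχ ⊢
    rw [Finset.mem_filter] at hχ ⊢
    refine ⟨Finset.mem_univ _, ?_⟩
    rw [← hχ.2]
    refine Finset.card_bij (fun q _ => y q) ?_ ?_ ?_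
    · intro q hq
      simpa using hq
    · intro a _ b _ hab
      exact y.injective hab
    · intro p hp
      refine ⟨y.symm p, by simpa using hp, by simp⟩
  have h2 : Y.card = ∑ χ' ∈ sup0 n x s, (Y.filter fun y : Perm (Fin n) => χ ∘ y = χ').card :=
    Finset.card_eq_sum_card_fiberwise (fun y hy => hmaps y hy)
  rw [h2]
  push_cast
  refine Finset.sum_le_sum fun χ' _ => ?_
  by_cases hemp : (Y.filter fun y : Perm (Fin n) => χ ∘ y = χ') = ∅
  · rw [hemp]
    simp only [Finset.card_empty, Nat.cast_zero]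
    split_ifs
    · positivity
    · exact le_refl 0
  · obtain ⟨y₀, hy₀⟩ := Finset.nonempty_iff_ne_empty.2 hemp
    rw [Finset.mem_filter] at hy₀
    have ht : typ V χ = typ V'⁻¹ χ' := by
      refine typ_eq_of V V'⁻¹ χ χ' y₀ fun q => ?_
      rw [hYm y₀ hy₀.1 q, hy₀.2]
    rw [if_pos ht]
    have h3 := card_comp_le (fun p => (χ p, χ (V p))) (fun q => (χ' q, χ' (V'⁻¹ q)))
      (Y.filter fun y : Perm (Fin n) => χ ∘ y = χ') (by
        intro y hy q
        rw [Finset.mem_filter] at hy
        have h4 := hYm y hy.1 q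
        rw [hy.2] at h4
        exact h4)
    have h5 : ((Y.filter fun y : Perm (Fin n) => χ ∘ y = χ').card : ℝ) ≤
        ((∏ t : Fin (x + 1) × Fin (x + 1),
          (Finset.univ.filter fun p => (χ p, χ (V p)) = t).card.factorial : ℕ) : ℝ) := by
      exact_mod_cast h3
    refine h5.trans (le_of_eq ?_)
    push_cast
    rfl

end Pool.Agent.Helper28.NX
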